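import Pool.Agent.H73.GWT.Stmts

/-!
# Board `gwt` (helper73), row BLO: the blocks of a word
-/

set_option autoImplicit false

namespace GWT

theorem blo_cons {S : Type*} (L : ℕ) (hL : 1 ≤ L) (b w : List S) (hb : b.length = L) :
    blocks L (b ++ w) = b :: blocks L w := by
  have h1 : (b ++ w).length / L = w.length / L + 1 := by
    rw [List.length_append, hb, Nat.add_comm, Nat.add_div_right _ hL]
  unfold blocks
  rw [h1, List.range_succ_eq_map, List.map_cons, List.map_map]
  congr 1
  · rw [Nat.mul_zero, List.drop_zero, ← hb, List.take_left']
    rfl
  · apply List.map_congr_left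
    intro i _
    show ((b ++ w).drop (L * (i + 1))).take L = (w.drop (L * i)).take L
    rw [show L * (i + 1) = b.length + L * i by rw [hb]; ring, List.drop_append,
      List.drop_eq_nil_of_le (by omega), List.nil_append, Nat.add_sub_cancel_left]

theorem blo_all {S : Type*} (L : ℕ) (hL : 1 ≤ L) (n : ℕ) : ∀ w : List S, w.length ≤ n →
    (∀ b ∈ blocks L w, b.length = L) ∧
      w = (blocks L w).flatten ++ w.drop (L * (w.length / L)) ∧
      (w.drop (L * (w.length / L))).length < L ∧ (blocks L w).length = w.length / L := by
  induction n with
  | zero =>
    intro w hw
    have : w = [] := List.length_eq_zero_iff.1 (by omega)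
    subst this
    simp [blocks]
    omega
  | succ n ih =>
    intro w hw
    by_cases hlt : w.length < L
    · have h0 : w.length / L = 0 := Nat.div_eq_of_lt hlt
      have hb : blocks L w = [] := by
        unfold blocks
        rw [h0]
        rfl
      rw [hb, h0]
      simp [hlt]
    · have hle : L ≤ w.length := by omega
      have hlen : (w.take L).length = L := by
        rw [List.length_take]
        omega
      have hw' : w.take L ++ w.drop L = w := List.take_append_drop L w
      have hdl : (w.drop L).length = w.length - L := List.length_drop
      have hdiv : w.length / L = (w.drop L).length / L + 1 := by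
        rw [hdl, ← Nat.add_div_right _ hL, Nat.sub_add_cancel hle]
      have hbl : blocks L w = w.take L :: blocks L (w.drop L) := by
        conv_lhs => rw [← hw']
        exact blo_cons L hL _ _ hlen
      obtain ⟨i1, i2, i3, i4⟩ := ih (w.drop L) (by omega)
      have hdd : w.drop (L * (w.length / L)) = (w.drop L).drop (L * ((w.drop L).length / L)) := by
        rw [List.drop_drop]
        congr 1
        rw [hdiv]
        ring
      refine ⟨?_, ?_, ?_, ?_⟩
      · intro b hb
        rw [hbl] at hb
        rcases List.mem_cons.1 hb with rfl | hb
        · exact hlen
        · exact i1 b hb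
      · rw [hbl, hdd, List.flatten_cons, List.append_assoc, ← i2, hw']
      · rw [hdd]
        exact i3
      · rw [hbl, List.length_cons, i4, hdiv]

theorem BLO (S : Type*) : BLOStmt S := by
  intro L hL
  exact ⟨fun w => blo_all L hL w.length w le_rfl, fun b w hb => blo_cons L hL b w hb⟩

end GWT
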